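import Mathlib

set_option autoImplicit false

namespace Pool.Agent.W49.Q2

/-- Two injective lists of colours on `[p, p+m]` can be matched by a permutation of the colours. -/
theorem glue (m p : ℕ) (c1 c2 : ℕ → Fin 7)
    (h1 : ∀ i j, p ≤ i → i < j → j ≤ p + m → c1 i ≠ c1 j)
    (h2 : ∀ i j, p ≤ i → i < j → j ≤ p + m → c2 i ≠ c2 j) :
    ∃ c : ℕ → Fin 7, (∀ i, i ≤ p + m → c i = c1 i) ∧
      ∃ σ : Equiv.Perm (Fin 7), ∀ i, p ≤ i → c i = σ (c2 i) := by
  classical
  let f : Fin (m + 1) → Fin 7 := fun k => c2 (p + k)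
  let g : Fin (m + 1) → Fin 7 := fun k => c1 (p + k)
  have hf : Function.Injective f := by
    intro a b hab
    rcases lt_trichotomy a b with h | h | h
    · exact absurd hab (h2 _ _ (by omega) (by have := Fin.lt_def.mp h; omega) (by have := b.isLt; omega))
    · exact h
    · exact absurd hab.symm (h2 _ _ (by omega) (by have := Fin.lt_def.mp h; omega) (by have := a.isLt; omega))
  have hg : Function.Injective g := by
    intro a b hab
    rcases lt_trichotomy a b with h | h | h
    · exact absurd hab (h1 _ _ (by omega) (by have := Fin.lt_def.mp h; omega) (by have := b.isLt; omega))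
    · exact h
    · exact absurd hab.symm (h1 _ _ (by omega) (by have := Fin.lt_def.mp h; omega) (by have := a.isLt; omega))
  let e : {x // x ∈ Set.range f} ≃ {x // x ∈ Set.range g} :=
    (Equiv.ofInjective f hf).symm.trans (Equiv.ofInjective g hg)
  let σ : Equiv.Perm (Fin 7) := e.extendSubtype
  have hσ : ∀ k : Fin (m + 1), σ (f k) = g k := by
    intro k
    have hk : f k ∈ Set.range f := ⟨k, rfl⟩
    have := Equiv.extendSubtype_apply_of_mem e (f k) hk
    rw [show σ (f k) = e.extendSubtype (f k) from rfl, this]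
    show ((Equiv.ofInjective g hg) ((Equiv.ofInjective f hf).symm ⟨f k, hk⟩) : Fin 7) = g k
    have h3 : (Equiv.ofInjective f hf).symm ⟨f k, hk⟩ = k := by
      rw [Equiv.symm_apply_eq]
      rfl
    rw [h3]
    rfl
  refine ⟨fun i => if i ≤ p + m then c1 i else σ (c2 i), ?_, σ, ?_⟩
  · intro i hi
    simp [hi]
  · intro i hi
    by_cases h : i ≤ p + m
    · simp only [h, if_true]
      have := hσ ⟨i - p, by omega⟩
      simp only [f, g] at this
      have h4 : p + (i - p) = i := by omega
      rw [h4] at this
      exact this.symm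
    · simp [h]

/-- Extending a partial proper colouring to one more vertex. -/
theorem extend (R : ℕ → ℕ → Prop) (hs : ∀ i j, R i j → R j i) (K : Set ℕ) (c : ℕ → Fin 7)
    (hc : ∀ i ∈ K, ∀ j ∈ K, R i j → c i ≠ c j) (v : ℕ) (hv : v ∉ K) (hirr : ¬ R v v)
    (F : Finset (Fin 7)) (hF : F.card ≤ 6) (h : ∀ j ∈ K, R v j → c j ∈ F) :
    ∃ c' : ℕ → Fin 7, (∀ i ∈ K, c' i = c i) ∧
      (∀ i ∈ insert v K, ∀ j ∈ insert v K, R i j → c' i ≠ c' j) := by
  classical
  obtain ⟨x, hx⟩ : ∃ x, x ∉ F := by
    by_contra hcon
    push Not at hcon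
    have : F = Finset.univ := by
      ext y; simp [hcon y]
    rw [this] at hF
    simp at hF
  refine ⟨Function.update c v x, ?_, ?_⟩
  · intro i hi
    have : i ≠ v := fun h => hv (h ▸ hi)
    simp [Function.update_of_ne this]
  · intro i hi j hj hij
    rcases Set.mem_insert_iff.mp hi with hiv | hiK
    · rcases Set.mem_insert_iff.mp hj with hjv | hjK
      · subst hiv; subst hjv
        exact absurd hij hirr
      · have hne : j ≠ v := fun h => hv (h ▸ hjK)
        rw [hiv, Function.update_self, Function.update_of_ne hne]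
        intro hxx
        exact hx (hxx ▸ h j hjK (hiv ▸ hij))
    · rcases Set.mem_insert_iff.mp hj with hjv | hjK
      · have hne : i ≠ v := fun h => hv (h ▸ hiK)
        rw [hjv, Function.update_self, Function.update_of_ne hne]
        intro hxx
        exact hx (hxx ▸ h i hiK (hs _ _ (hjv ▸ hij)))
      · have hne : i ≠ v := fun h => hv (h ▸ hiK)
        have hne' : j ≠ v := fun h => hv (h ▸ hjK)
        rw [Function.update_of_ne hne, Function.update_of_ne hne']
        exact hc i hiK j hjK hij

end Pool.Agent.W49.Q2
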