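import Mathlib
import Pool.Agent.W49.Q2.Basic

set_option autoImplicit false

namespace Pool.Agent.W49.Q2

/-- The hypothesis on a queue: all pairs are increasing, below `n`, and no two are nested. -/
def Queue (n : ℕ) (Q : Finset (ℕ × ℕ)) : Prop :=
  (∀ e ∈ Q, e.1 < e.2 ∧ e.2 < n) ∧ (∀ e ∈ Q, ∀ f ∈ Q, ¬ (e.1 < f.1 ∧ f.2 < e.2))

/-- A proper 7-colouring of the square of the path plus one queue. -/
def Col (n : ℕ) (Q : Finset (ℕ × ℕ)) (c : ℕ → Fin 7) : Prop :=
  (∀ i j, i < j → j ≤ i + 2 → j < n → c i ≠ c j) ∧ (∀ e ∈ Q, c e.1 ≠ c e.2)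

/-- Pulling back a colouring along a monotone map. -/
theorem pullback (n n' : ℕ) (Q : Finset (ℕ × ℕ)) (hQ : Queue n Q) (K : ℕ → Prop) (φ : ℕ → ℕ)
    (ih : ∀ Q' : Finset (ℕ × ℕ), Queue n' Q' → ∃ c, Col n' Q' c)
    (hmono : ∀ i j, i ≤ j → φ i ≤ φ j)
    (hlt : ∀ i, i < n → K i → φ i < n')
    (hP : ∀ i j, K i → K j → i < j → j ≤ i + 2 → j < n → φ i < φ j ∧ φ j ≤ φ i + 2)
    (hE : ∀ e ∈ Q, K e.1 → K e.2 → φ e.1 ≠ φ e.2) :
    ∃ c : ℕ → Fin 7, (∀ i j, K i → K j → i < j → j ≤ i + 2 → j < n → c i ≠ c j) ∧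
      (∀ e ∈ Q, K e.1 → K e.2 → c e.1 ≠ c e.2) ∧ (∀ i j, φ i = φ j → c i = c j) := by
  classical
  have hQ' : Queue n' ((Q.filter (fun e => K e.1 ∧ K e.2)).image (fun e => (φ e.1, φ e.2))) := by
    constructor
    · intro e he
      obtain ⟨f, hf, rfl⟩ := Finset.mem_image.mp he
      obtain ⟨hfQ, hf1, hf2⟩ := Finset.mem_filter.mp hf
      have h1 := hQ.1 f hfQ
      have h2 := hmono f.1 f.2 h1.1.le
      have h3 := hE f hfQ hf1 hf2
      exact ⟨lt_of_le_of_ne h2 h3, hlt _ h1.2 hf2⟩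
    · intro e he f hf hn
      obtain ⟨e', he', rfl⟩ := Finset.mem_image.mp he
      obtain ⟨f', hf', rfl⟩ := Finset.mem_image.mp hf
      obtain ⟨heQ, he1, he2⟩ := Finset.mem_filter.mp he'
      obtain ⟨hfQ, hf1, hf2⟩ := Finset.mem_filter.mp hf'
      refine hQ.2 e' heQ f' hfQ ⟨?_, ?_⟩
      · by_contra h
        have := hmono f'.1 e'.1 (by omega)
        have := hn.1
        simp only at this
        omega
      · by_contra h
        have := hmono e'.2 f'.2 (by omega)
        have := hn.2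
        simp only at this
        omega
  obtain ⟨c, hc1, hc2⟩ := ih _ hQ'
  refine ⟨fun i => c (φ i), ?_, ?_, ?_⟩
  · intro i j hi hj hij hij2 hjn
    have := hP i j hi hj hij hij2 hjn
    exact hc1 _ _ this.1 this.2 (hlt j hjn hj)
  · intro e he h1 h2
    exact hc2 (φ e.1, φ e.2) (Finset.mem_image.mpr ⟨e, Finset.mem_filter.mpr ⟨he, h1, h2⟩, rfl⟩)
  · intro i j hij
    simp only [hij]

/-- long edges at a vertex -/
def inc (Q : Finset (ℕ × ℕ)) (q : ℕ) : Finset (ℕ × ℕ) :=
  Q.filter (fun e => e.1 + 3 ≤ e.2 ∧ (e.1 = q ∨ e.2 = q))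

/-- the other endpoint -/
def oth (q : ℕ) (e : ℕ × ℕ) : ℕ := if e.1 = q then e.2 else e.1

/-- adjacency in the square of the path plus the queue -/
def R (n : ℕ) (Q : Finset (ℕ × ℕ)) (i j : ℕ) : Prop :=
  i < n ∧ j < n ∧ ((i < j ∧ j ≤ i + 2) ∨ (j < i ∧ i ≤ j + 2) ∨
    ((i, j) ∈ Q ∧ i + 3 ≤ j) ∨ ((j, i) ∈ Q ∧ j + 3 ≤ i))

theorem R_symm (n : ℕ) (Q : Finset (ℕ × ℕ)) (i j : ℕ) (h : R n Q i j) : R n Q j i := by
  unfold R at *
  tauto

theorem R_irr (n : ℕ) (Q : Finset (ℕ × ℕ)) (i : ℕ) : ¬ R n Q i i := by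
  unfold R
  omega

theorem R_cases (n : ℕ) (Q : Finset (ℕ × ℕ)) (v j : ℕ) (h : R n Q v j) :
    j = v + 1 ∨ j = v + 2 ∨ v = j + 1 ∨ v = j + 2 ∨ (∃ e ∈ inc Q v, oth v e = j) := by
  obtain ⟨-, -, h | h | h | h⟩ := h
  · omega
  · omega
  · right; right; right; right
    refine ⟨(v, j), ?_, ?_⟩
    · simp [inc, h.1, h.2]
    · simp [oth]
  · right; right; right; right
    refine ⟨(j, v), ?_, ?_⟩
    · simp [inc, h.1, h.2]
    · have : j ≠ v := by omega
      simp [oth, this]

theorem col_of_R (n : ℕ) (Q : Finset (ℕ × ℕ)) (hQ : Queue n Q) (c : ℕ → Fin 7)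
    (h : ∀ i j, R n Q i j → c i ≠ c j) : Col n Q c := by
  constructor
  · intro i j hij hij2 hj
    exact h i j ⟨by omega, hj, Or.inl ⟨hij, hij2⟩⟩
  · intro e he
    have h1 := hQ.1 e he
    by_cases h3 : e.1 + 3 ≤ e.2
    · exact h _ _ ⟨by omega, h1.2, Or.inr (Or.inr (Or.inl ⟨he, h3⟩))⟩
    · exact h _ _ ⟨by omega, h1.2, Or.inl ⟨h1.1, by omega⟩⟩

theorem R_of_pull (n : ℕ) (Q : Finset (ℕ × ℕ)) (K : ℕ → Prop) (c : ℕ → Fin 7)
    (h1 : ∀ i j, K i → K j → i < j → j ≤ i + 2 → j < n → c i ≠ c j)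
    (h2 : ∀ e ∈ Q, K e.1 → K e.2 → c e.1 ≠ c e.2) :
    ∀ i, K i → ∀ j, K j → R n Q i j → c i ≠ c j := by
  intro i hi j hj h
  obtain ⟨hin, hjn, h | h | h | h⟩ := h
  · exact h1 i j hi hj h.1 h.2 hjn
  · exact (h1 j i hj hi h.1 h.2 hin).symm
  · exact h2 (i, j) h.1 hi hj
  · exact (h2 (j, i) h.1 hj hi).symm

/-- Deleting a vertex with at most two long edges. -/
theorem step_delete (n : ℕ) (Q : Finset (ℕ × ℕ)) (hQ : Queue n Q) (q : ℕ) (hq : q < n)
    (hs : (inc Q q).card ≤ 2)
    (ih : ∀ Q' : Finset (ℕ × ℕ), Queue (n - 1) Q' → ∃ c, Col (n - 1) Q' c) :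
    ∃ c, Col n Q c := by
  classical
  obtain ⟨c, hc1, hc2, -⟩ := pullback n (n - 1) Q hQ (fun i => i ≠ q)
    (fun i => if i < q then i else i - 1) ih
    (by intro i j hij; split_ifs <;> omega)
    (by intro i hi hK; split_ifs <;> omega)
    (by intro i j hi hj hij hij2 hjn; split_ifs <;> omega)
    (by intro e he h1 h2
        have := hQ.1 e he
        split_ifs <;> omega)
  have hR := R_of_pull n Q (fun i => i ≠ q) c hc1 hc2
  obtain ⟨c', -, hc'⟩ := extend (R n Q) (R_symm n Q) {i | i ≠ q} c hR q (by simp) (R_irr n Q q)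
    (insert (c (q + 1)) (insert (c (q + 2)) (insert (c (q - 1)) (insert (c (q - 2))
      ((inc Q q).image (fun e => c (oth q e)))))))
    (by
      refine (Finset.card_insert_le _ _).trans ?_
      refine Nat.succ_le_succ ?_
      refine (Finset.card_insert_le _ _).trans ?_
      refine Nat.succ_le_succ ?_
      refine (Finset.card_insert_le _ _).trans ?_
      refine Nat.succ_le_succ ?_
      refine (Finset.card_insert_le _ _).trans ?_
      refine Nat.succ_le_succ ?_
      exact Finset.card_image_le.trans hs)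
    (by
      intro j hj hqj
      rcases R_cases n Q q j hqj with h | h | h | h | ⟨e, he, h⟩
      · simp [h]
      · simp [h]
      · have : j = q - 1 := by omega
        simp [this]
      · have : j = q - 2 := by omega
        simp [this]
      · simp only [Finset.mem_insert, Finset.mem_image]
        right; right; right; right
        exact ⟨e, he, by rw [h]⟩)
  refine ⟨c', col_of_R n Q hQ c' ?_⟩
  intro i j hij
  refine hc' i ?_ j ?_ hij
  · by_cases h : i = q
    · simp [h]
    · simp [h]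
  · by_cases h : j = q
    · simp [h]
    · simp [h]

/-- Contracting `[q-1, q+2]`. -/
theorem step_contract (n : ℕ) (Q : Finset (ℕ × ℕ)) (hQ : Queue n Q) (q : ℕ) (hq1 : 1 ≤ q)
    (hq : q + 2 < n) (hne : (q - 1, q + 2) ∉ Q)
    (hs : (inc Q q).card ≤ 3) (hs' : (inc Q (q + 1)).card ≤ 4)
    (ih : ∀ Q' : Finset (ℕ × ℕ), Queue (n - 3) Q' → ∃ c, Col (n - 3) Q' c) :
    ∃ c, Col n Q c := by
  classical
  obtain ⟨c, hc1, hc2, hc3⟩ := pullback n (n - 3) Q hQ (fun i => i ≠ q ∧ i ≠ q + 1)
    (fun i => if i < q then i else if i ≤ q + 1 then q - 1 else i - 3) ih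
    (by intro i j hij; split_ifs <;> omega)
    (by intro i hi hK; split_ifs <;> omega)
    (by intro i j hi hj hij hij2 hjn; split_ifs <;> omega)
    (by intro e he h1 h2 heq
        have h3 := hQ.1 e he
        have h4 : e = (q - 1, q + 2) := by
          apply Prod.ext
          · show e.1 = q - 1
            split_ifs at heq <;> omega
          · show e.2 = q + 2
            split_ifs at heq <;> omega
        exact hne (h4 ▸ he))
  have hR := R_of_pull n Q (fun i => i ≠ q ∧ i ≠ q + 1) c hc1 hc2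
  have hz : c (q - 1) = c (q + 2) := by
    apply hc3
    split_ifs <;> omega
  obtain ⟨c', hcc, hc'⟩ := extend (R n Q) (R_symm n Q) {i | i ≠ q ∧ i ≠ q + 1} c hR (q + 1) (by simp)
    (R_irr n Q (q + 1))
    (insert (c (q + 2)) (insert (c (q + 3))
      ((inc Q (q + 1)).image (fun e => c (oth (q + 1) e)))))
    (by
      refine (Finset.card_insert_le _ _).trans ?_
      refine Nat.succ_le_succ ?_
      refine (Finset.card_insert_le _ _).trans ?_
      refine Nat.succ_le_succ ?_
      exact Finset.card_image_le.trans hs')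
    (by
      intro j hj hqj
      simp only [Set.mem_ofPred_eq] at hj
      rcases R_cases n Q (q + 1) j hqj with h | h | h | h | ⟨e, he, h⟩
      · have : j = q + 2 := by omega
        simp [this]
      · have : j = q + 3 := by omega
        simp [this]
      · exfalso; omega
      · have : j = q - 1 := by omega
        simp [this, hz]
      · simp only [Finset.mem_insert, Finset.mem_image]
        right; right
        exact ⟨e, he, by rw [h]⟩)
  obtain ⟨c'', -, hc''⟩ := extend (R n Q) (R_symm n Q) (insert (q + 1) {i | i ≠ q ∧ i ≠ q + 1}) c' hc' q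
    (by simp) (R_irr n Q q)
    (insert (c' (q - 2)) (insert (c' (q + 2)) (insert (c' (q + 1))
      ((inc Q q).image (fun e => c' (oth q e))))))
    (by
      refine (Finset.card_insert_le _ _).trans ?_
      refine Nat.succ_le_succ ?_
      refine (Finset.card_insert_le _ _).trans ?_
      refine Nat.succ_le_succ ?_
      refine (Finset.card_insert_le _ _).trans ?_
      refine Nat.succ_le_succ ?_
      exact Finset.card_image_le.trans hs)
    (by
      intro j hj hqj
      rcases R_cases n Q q j hqj with h | h | h | h | ⟨e, he, h⟩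
      · simp [h]
      · simp [h]
      · have h1 : j = q - 1 := by omega
        have h2 : c' (q - 1) = c' (q + 2) := by
          rw [hcc (q - 1) (by simp only [Set.mem_ofPred_eq]; omega),
            hcc (q + 2) (by simp only [Set.mem_ofPred_eq]; omega), hz]
        simp [h1, h2]
      · have : j = q - 2 := by omega
        simp [this]
      · simp only [Finset.mem_insert, Finset.mem_image]
        right; right; right
        exact ⟨e, he, by rw [h]⟩)
  refine ⟨c'', col_of_R n Q hQ c'' ?_⟩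
  intro i j hij
  refine hc'' i ?_ j ?_ hij
  · by_cases h : i = q
    · simp [h]
    · by_cases h' : i = q + 1
      · simp [h']
      · simp [h, h']
  · by_cases h : j = q
    · simp [h]
    · by_cases h' : j = q + 1
      · simp [h']
      · simp [h, h']

end Pool.Agent.W49.Q2
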