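import Mathlib
import Pool.Agent.W49.Q2.Spiral

set_option autoImplicit false

namespace Pool.Agent.W49.Q2

/-- A pair `(p, p+3)` in the middle separates the graph by a clique. -/
theorem step_pinch (n : ℕ) (Q : Finset (ℕ × ℕ)) (hQ : Queue n Q) (p : ℕ) (hp : 1 ≤ p)
    (hpn : p + 4 < n) (hpin : (p, p + 3) ∈ Q)
    (ih : ∀ m, m < n → ∀ Q' : Finset (ℕ × ℕ), Queue m Q' → ∃ c, Col m Q' c) :
    ∃ c, Col n Q c := by
  classical
  obtain ⟨c1, hc1, hc1'⟩ := ih (p + 4) hpn (Q.filter (fun e => e.2 ≤ p + 3)) ⟨by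
      intro e he
      obtain ⟨he, he2⟩ := Finset.mem_filter.mp he
      exact ⟨(hQ.1 e he).1, by omega⟩, by
      intro e he f hf
      exact hQ.2 e (Finset.mem_filter.mp he).1 f (Finset.mem_filter.mp hf).1⟩
  obtain ⟨c2, hc2, hc2'⟩ := ih (n - p) (by omega)
    ((Q.filter (fun e => p ≤ e.1)).image (fun e => (e.1 - p, e.2 - p))) ⟨by
      intro e he
      obtain ⟨f, hf, rfl⟩ := Finset.mem_image.mp he
      obtain ⟨hf, hf2⟩ := Finset.mem_filter.mp hf
      have := hQ.1 f hf
      constructor
      · show f.1 - p < f.2 - p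
        omega
      · show f.2 - p < n - p
        omega, by
      intro e he f hf hn
      obtain ⟨e', he', rfl⟩ := Finset.mem_image.mp he
      obtain ⟨f', hf', rfl⟩ := Finset.mem_image.mp hf
      obtain ⟨he', he2⟩ := Finset.mem_filter.mp he'
      obtain ⟨hf', hf2⟩ := Finset.mem_filter.mp hf'
      have h1 := hQ.1 e' he'
      have h2 := hQ.1 f' hf'
      have h3 : e'.1 - p < f'.1 - p := hn.1
      have h4 : f'.2 - p < e'.2 - p := hn.2
      exact hQ.2 e' he' f' hf' ⟨by omega, by omega⟩⟩
  obtain ⟨c, hcl, σ, hcr⟩ := glue 3 p c1 (fun i => c2 (i - p))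
    (by
      intro i j hi hij hj
      by_cases h : j ≤ i + 2
      · exact hc1 i j hij h (by omega)
      · have h1 : i = p := by omega
        have h2 : j = p + 3 := by omega
        subst h1; subst h2
        exact hc1' (i, i + 3) (Finset.mem_filter.mpr ⟨hpin, le_refl _⟩))
    (by
      intro i j hi hij hj
      by_cases h : j ≤ i + 2
      · exact hc2 (i - p) (j - p) (by omega) (by omega) (by omega)
      · have h1 : i = p := by omega
        have h2 : j = p + 3 := by omega
        subst h1; subst h2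
        exact hc2' (i - i, i + 3 - i) (Finset.mem_image.mpr ⟨(i, i + 3), Finset.mem_filter.mpr ⟨hpin, le_refl _⟩, rfl⟩))
  refine ⟨c, ?_, ?_⟩
  · intro i j hij hij2 hjn
    by_cases h : j ≤ p + 3
    · rw [hcl i (by omega), hcl j h]
      exact hc1 i j hij hij2 (by omega)
    · rw [hcr i (by omega), hcr j (by omega)]
      intro heq
      exact hc2 (i - p) (j - p) (by omega) (by omega) (by omega) (σ.injective heq)
  · intro e he
    have h0 := hQ.1 e he
    by_cases h : e.2 ≤ p + 3
    · rw [hcl e.1 (by omega), hcl e.2 h]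
      exact hc1' e (Finset.mem_filter.mpr ⟨he, h⟩)
    · by_cases h' : p ≤ e.1
      · rw [hcr e.1 h', hcr e.2 (by omega)]
        intro heq
        exact hc2' (e.1 - p, e.2 - p) (Finset.mem_image.mpr ⟨e, Finset.mem_filter.mpr ⟨he, h'⟩, rfl⟩)
          (σ.injective heq)
      · exfalso
        exact hQ.2 e he (p, p + 3) hpin ⟨by show e.1 < p; omega, by show p + 3 < e.2; omega⟩

theorem count (n : ℕ) (Q : Finset (ℕ × ℕ)) (hQ : Queue n Q) (hn : 8 ≤ n)
    (h3 : ∀ q, q < n → 3 ≤ (inc Q q).card)
    (h5 : ∀ q, 2 ≤ q → q + 4 ≤ n → (inc Q q).card ≤ 3 → 5 ≤ (inc Q (q + 1)).card) : False := by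
  classical
  set L := Q.filter (fun e => e.1 + 3 ≤ e.2) with hL
  have hLQ : ∀ e ∈ L, e ∈ Q ∧ e.1 + 3 ≤ e.2 := fun e he => Finset.mem_filter.mp he
  -- upper bound
  have hLc : L.card ≤ 2 * n - 7 := by
    have h1 : L.card ≤ (Finset.Ico 3 (2 * n - 4)).card := by
      apply Finset.card_le_card_of_injOn (fun e => e.1 + e.2)
      · intro e he
        have h1 := hLQ e he
        have h2 := hQ.1 e h1.1
        simp only [Finset.coe_Ico, Set.mem_Ico]
        omega
      · intro e he f hf hef
        have he1 := hLQ e he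
        have hf1 := hLQ f hf
        have hef' : e.1 + e.2 = f.1 + f.2 := hef
        rcases lt_trichotomy e.1 f.1 with h | h | h
        · exact absurd ⟨h, by omega⟩ (hQ.2 e he1.1 f hf1.1)
        · exact Prod.ext h (by omega)
        · exact absurd ⟨h, by omega⟩ (hQ.2 f hf1.1 e he1.1)
    rw [Nat.card_Ico] at h1
    omega
  have hinc : ∀ q, (inc Q q).card ≤ (L.filter (fun e => e.1 = q)).card + (L.filter (fun e => e.2 = q)).card := by
    intro q
    have : inc Q q ⊆ L.filter (fun e => e.1 = q) ∪ L.filter (fun e => e.2 = q) := by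
      intro e he
      obtain ⟨h1, h2, h3⟩ := Finset.mem_filter.mp he
      simp only [Finset.mem_union, Finset.mem_filter, hL]
      tauto
    exact (Finset.card_le_card this).trans (Finset.card_union_le _ _)
  have hS1 : ∑ q ∈ Finset.range n, (L.filter (fun e => e.1 = q)).card = L.card := by
    symm
    apply Finset.card_eq_sum_card_fiberwise
    intro e he
    have h1 := hLQ e he
    have h2 := hQ.1 e h1.1
    simp only [Finset.coe_range, Set.mem_Iio]
    omega
  have hS2 : ∑ q ∈ Finset.range n, (L.filter (fun e => e.2 = q)).card = L.card := by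
    symm
    apply Finset.card_eq_sum_card_fiberwise
    intro e he
    have h1 := hLQ e he
    have h2 := hQ.1 e h1.1
    simp only [Finset.coe_range, Set.mem_Iio]
    omega
  have hup : ∑ q ∈ Finset.range n, (inc Q q).card ≤ 2 * (2 * n - 7) := by
    calc ∑ q ∈ Finset.range n, (inc Q q).card
        ≤ ∑ q ∈ Finset.range n, ((L.filter (fun e => e.1 = q)).card + (L.filter (fun e => e.2 = q)).card) :=
          Finset.sum_le_sum (fun q _ => hinc q)
      _ = L.card + L.card := by rw [Finset.sum_add_distrib, hS1, hS2]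
      _ ≤ 2 * (2 * n - 7) := by omega
  -- lower bound
  have hlow : ∀ m, 2 ≤ m → m ≤ n - 2 →
      (4 * (m - 2) ≤ ∑ q ∈ Finset.Ico 2 m, (inc Q q).card) ∨
      (4 * (m - 2) ≤ ∑ q ∈ Finset.Ico 2 m, (inc Q q).card + 1 ∧ 3 ≤ m ∧ (inc Q (m - 1)).card ≤ 3) := by
    intro m hm
    induction m, hm using Nat.le_induction with
    | base => intro _; left; simp
    | succ m hm ihm =>
      intro hmn
      rw [Finset.sum_Ico_succ_top hm]
      have hm3 := h3 m (by omega)
      rcases ihm (by omega) with h | ⟨h, hm3', h'⟩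
      · by_cases h4 : 4 ≤ (inc Q m).card
        · left; omega
        · right
          refine ⟨by omega, by omega, ?_⟩
          simp only [Nat.add_sub_cancel]
          omega
      · have h6 := h5 (m - 1) (by omega) (by omega) h'
        have h7 : m - 1 + 1 = m := by omega
        rw [h7] at h6
        left; omega
  obtain ⟨k, rfl⟩ : ∃ k, n = k + 4 := ⟨n - 4, by omega⟩
  have h10 := hlow (k + 2) (by omega) (by omega)
  have h11 : 4 * k ≤ ∑ q ∈ Finset.Ico 2 (k + 2), (inc Q q).card + 1 := by
    rcases h10 with h | h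
    · have : 4 * (k + 2 - 2) = 4 * k := by omega
      omega
    · have : 4 * (k + 2 - 2) = 4 * k := by omega
      omega
  have h12 : ∑ q ∈ Finset.range (k + 4), (inc Q q).card =
      ∑ q ∈ Finset.range 2, (inc Q q).card + ∑ q ∈ Finset.Ico 2 (k + 2), (inc Q q).card
        + (inc Q (k + 2)).card + (inc Q (k + 3)).card := by
    rw [Finset.sum_range_succ, Finset.sum_range_succ, ← Finset.sum_range_add_sum_Ico _ (show 2 ≤ k + 2 by omega)]
  rw [h12, Finset.sum_range_succ, Finset.sum_range_succ, Finset.sum_range_zero] at hup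
  have ha := h3 0 (by omega)
  have hb := h3 1 (by omega)
  have hc := h3 (k + 2) (by omega)
  have hd := h3 (k + 3) (by omega)
  omega

theorem small_col (n : ℕ) (hn : n ≤ 7) (i j : ℕ) (hij : i < j) (hj : j < n) :
    (⟨i % 7, Nat.mod_lt _ (by norm_num)⟩ : Fin 7) ≠ ⟨j % 7, Nat.mod_lt _ (by norm_num)⟩ := by
  intro h
  have := Fin.mk.inj_iff.mp h
  omega

/-- The square of a path plus one queue is 7-colourable. -/
theorem spiral (n : ℕ) : ∀ Q : Finset (ℕ × ℕ), Queue n Q → ∃ c, Col n Q c := by
  classical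
  induction n using Nat.strong_induction_on with
  | _ n ih =>
    intro Q hQ
    by_cases hn : n ≤ 7
    · refine ⟨fun i => ⟨i % 7, Nat.mod_lt _ (by norm_num)⟩, ?_, ?_⟩
      · intro i j hij _ hj
        exact small_col n hn i j hij hj
      · intro e he
        exact small_col n hn e.1 e.2 (hQ.1 e he).1 (hQ.1 e he).2
    by_cases h1 : ∃ q, q < n ∧ (inc Q q).card ≤ 2
    · obtain ⟨q, hq, hs⟩ := h1
      exact step_delete n Q hQ q hq hs (ih (n - 1) (by omega))
    by_cases h2 : ∃ p, 1 ≤ p ∧ p + 4 < n ∧ (p, p + 3) ∈ Q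
    · obtain ⟨p, hp, hpn, hpin⟩ := h2
      exact step_pinch n Q hQ p hp hpn hpin ih
    by_cases h3 : ∃ q, 2 ≤ q ∧ q + 4 ≤ n ∧ (inc Q q).card ≤ 3 ∧ (inc Q (q + 1)).card ≤ 4
    · obtain ⟨q, hq, hqn, hs, hs'⟩ := h3
      refine step_contract n Q hQ q (by omega) (by omega) ?_ hs hs' (ih (n - 3) (by omega))
      intro hcon
      apply h2
      refine ⟨q - 1, by omega, by omega, ?_⟩
      have : q - 1 + 3 = q + 2 := by omega
      rw [this]; exact hcon
    · exfalso
      refine count n Q hQ (by omega) ?_ ?_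
      · intro q hq
        by_contra hcon
        exact h1 ⟨q, hq, by omega⟩
      · intro q hq hqn hs
        by_contra hcon
        exact h3 ⟨q, hq, hqn, hs, by omega⟩

end Pool.Agent.W49.Q2
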