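import Mathlib
import Pool.Agent.W49.Q2.Main1

set_option autoImplicit false

namespace Pool.Agent.W49.Q2

theorem queue_image (n n' : ℕ) (Q : Finset (ℕ × ℕ)) (hQ : Queue n Q) (φ : ℕ → ℕ)
    (hmono : ∀ i j, i ≤ j → φ i ≤ φ j) (hlt : ∀ i, i < n → φ i < n')
    (hE : ∀ e ∈ Q, φ e.1 ≠ φ e.2) :
    Queue n' (Q.image (fun e => (φ e.1, φ e.2))) := by
  classical
  constructor
  · intro e he
    obtain ⟨f, hf, rfl⟩ := Finset.mem_image.mp he
    have h1 := hQ.1 f hf
    exact ⟨lt_of_le_of_ne (hmono f.1 f.2 h1.1.le) (hE f hf), hlt _ h1.2⟩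
  · intro e he f hf hn
    obtain ⟨e', he', rfl⟩ := Finset.mem_image.mp he
    obtain ⟨f', hf', rfl⟩ := Finset.mem_image.mp hf
    have hn1 : φ e'.1 < φ f'.1 := hn.1
    have hn2 : φ f'.2 < φ e'.2 := hn.2
    refine hQ.2 e' he' f' hf' ⟨?_, ?_⟩
    · by_contra h
      have := hmono f'.1 e'.1 (by omega)
      omega
    · by_contra h
      have := hmono e'.2 f'.2 (by omega)
      omega

/-- The inductive claim for two queues. -/
def Good (n : ℕ) : Prop :=
  ∀ E1 E2 : Finset (ℕ × ℕ), Queue n E1 → Queue n E2 →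
    ∃ c : ℕ → Fin 7, ∀ e, e ∈ E1 ∨ e ∈ E2 → c e.1 ≠ c e.2

theorem step_merge (n : ℕ) (E1 E2 : Finset (ℕ × ℕ)) (h1 : Queue n E1) (h2 : Queue n E2) (t : ℕ)
    (ht : t + 1 < n) (ht1 : (t, t + 1) ∉ E1) (ht2 : (t, t + 1) ∉ E2) (ih : Good (n - 1)) :
    ∃ c : ℕ → Fin 7, ∀ e, e ∈ E1 ∨ e ∈ E2 → c e.1 ≠ c e.2 := by
  classical
  have hm : ∀ i j : ℕ, i ≤ j → (if i ≤ t then i else i - 1) ≤ (if j ≤ t then j else j - 1) := by
    intro i j hij; split_ifs <;> omega
  have hl : ∀ i : ℕ, i < n → (if i ≤ t then i else i - 1) < n - 1 := by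
    intro i hi; split_ifs <;> omega
  have hE : ∀ Q : Finset (ℕ × ℕ), Queue n Q → (t, t + 1) ∉ Q → ∀ e ∈ Q,
      (if e.1 ≤ t then e.1 else e.1 - 1) ≠ (if e.2 ≤ t then e.2 else e.2 - 1) := by
    intro Q hQ hnot e he heq
    have h3 := hQ.1 e he
    have h4 : e = (t, t + 1) := by
      apply Prod.ext
      · show e.1 = t
        split_ifs at heq <;> omega
      · show e.2 = t + 1
        split_ifs at heq <;> omega
    exact hnot (h4 ▸ he)
  obtain ⟨c, hc⟩ := ih _ _
    (queue_image n (n - 1) E1 h1 (fun i => if i ≤ t then i else i - 1) hm hl (hE E1 h1 ht1))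
    (queue_image n (n - 1) E2 h2 (fun i => if i ≤ t then i else i - 1) hm hl (hE E2 h2 ht2))
  refine ⟨fun i => c (if i ≤ t then i else i - 1), ?_⟩
  intro e he
  refine hc ((if e.1 ≤ t then e.1 else e.1 - 1), (if e.2 ≤ t then e.2 else e.2 - 1)) ?_
  rcases he with he | he
  · left; exact Finset.mem_image.mpr ⟨e, he, rfl⟩
  · right; exact Finset.mem_image.mpr ⟨e, he, rfl⟩

theorem step_alt (n : ℕ) (E1 E2 : Finset (ℕ × ℕ)) (h1 : Queue n E1) (h2 : Queue n E2) (t : ℕ)
    (ht : 1 ≤ t) (htn : t + 3 < n) (ht1 : (t, t + 1) ∈ E1) (ht2 : (t + 1, t + 2) ∈ E2)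
    (ih : ∀ m, m < n → Good m) :
    ∃ c : ℕ → Fin 7, ∀ e, e ∈ E1 ∨ e ∈ E2 → c e.1 ≠ c e.2 := by
  classical
  -- left part
  have hA2 : Queue (t + 3) (E2.filter (fun e => e.2 ≤ t + 2)) := by
    constructor
    · intro e he
      obtain ⟨he, he2⟩ := Finset.mem_filter.mp he
      exact ⟨(h2.1 e he).1, by omega⟩
    · intro e he f hf
      exact h2.2 e (Finset.mem_filter.mp he).1 f (Finset.mem_filter.mp hf).1
  have hA1 : Queue (t + 3) (insert (t, t + 2) (E1.filter (fun e => e.2 ≤ t + 2))) := by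
    constructor
    · intro e he
      rcases Finset.mem_insert.mp he with rfl | he
      · exact ⟨by show t < t + 2; omega, by show t + 2 < t + 3; omega⟩
      · obtain ⟨he, he2⟩ := Finset.mem_filter.mp he
        exact ⟨(h1.1 e he).1, by omega⟩
    · intro e he f hf hn
      rcases Finset.mem_insert.mp he with he | he
      · rcases Finset.mem_insert.mp hf with hf | hf
        · rw [he, hf] at hn; omega
        · obtain ⟨hf, hf2⟩ := Finset.mem_filter.mp hf
          have := h1.1 f hf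
          rw [he] at hn
          have h3 : t < f.1 := hn.1
          have h4 : f.2 < t + 2 := hn.2
          omega
      · obtain ⟨he, he2⟩ := Finset.mem_filter.mp he
        rcases Finset.mem_insert.mp hf with hf | hf
        · rw [hf] at hn
          have h3 : e.1 < t := hn.1
          have h4 : t + 2 < e.2 := hn.2
          omega
        · exact h1.2 e he f (Finset.mem_filter.mp hf).1 hn
  -- right part
  have hB2 : Queue (n - t) ((E2.filter (fun e => t ≤ e.1)).image (fun e => (e.1 - t, e.2 - t))) := by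
    constructor
    · intro e he
      obtain ⟨f, hf, rfl⟩ := Finset.mem_image.mp he
      obtain ⟨hf, hf2⟩ := Finset.mem_filter.mp hf
      have := h2.1 f hf
      exact ⟨by show f.1 - t < f.2 - t; omega, by show f.2 - t < n - t; omega⟩
    · intro e he f hf hn
      obtain ⟨e', he', rfl⟩ := Finset.mem_image.mp he
      obtain ⟨f', hf', rfl⟩ := Finset.mem_image.mp hf
      obtain ⟨he', he2⟩ := Finset.mem_filter.mp he'
      obtain ⟨hf', hf2⟩ := Finset.mem_filter.mp hf'
      have h3 : e'.1 - t < f'.1 - t := hn.1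
      have h4 : f'.2 - t < e'.2 - t := hn.2
      exact h2.2 e' he' f' hf' ⟨by omega, by omega⟩
  have hB1 : Queue (n - t) ((insert (t, t + 2) (E1.filter (fun e => t ≤ e.1))).image
      (fun e => (e.1 - t, e.2 - t))) := by
    have key : ∀ e ∈ insert (t, t + 2) (E1.filter (fun e => t ≤ e.1)), t ≤ e.1 ∧ e.1 < e.2 ∧ e.2 < n := by
      intro e he
      rcases Finset.mem_insert.mp he with rfl | he
      · exact ⟨le_refl _, by show t < t + 2; omega, by show t + 2 < n; omega⟩
      · obtain ⟨he, he2⟩ := Finset.mem_filter.mp he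
        exact ⟨he2, (h1.1 e he).1, (h1.1 e he).2⟩
    constructor
    · intro e he
      obtain ⟨f, hf, rfl⟩ := Finset.mem_image.mp he
      have := key f hf
      exact ⟨by show f.1 - t < f.2 - t; omega, by show f.2 - t < n - t; omega⟩
    · intro e he f hf hn
      obtain ⟨e', he', rfl⟩ := Finset.mem_image.mp he
      obtain ⟨f', hf', rfl⟩ := Finset.mem_image.mp hf
      have ke := key e' he'
      have kf := key f' hf'
      have h3 : e'.1 - t < f'.1 - t := hn.1
      have h4 : f'.2 - t < e'.2 - t := hn.2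
      rcases Finset.mem_insert.mp he' with he | he
      · rw [he] at h3 h4
        have h5 : t - t < f'.1 - t := h3
        have h6 : f'.2 - t < t + 2 - t := h4
        omega
      · rcases Finset.mem_insert.mp hf' with hf | hf
        · rw [hf] at h3
          have h5 : e'.1 - t < t - t := h3
          omega
        · exact h1.2 e' (Finset.mem_filter.mp he).1 f' (Finset.mem_filter.mp hf).1 ⟨by omega, by omega⟩
  obtain ⟨c1, hc1⟩ := ih (t + 3) htn _ _ hA1 hA2
  obtain ⟨c2, hc2⟩ := ih (n - t) (by omega) _ _ hB1 hB2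
  obtain ⟨c, hcl, σ, hcr⟩ := glue 2 t c1 (fun i => c2 (i - t))
    (by
      intro i j hi hij hj
      rcases (show (i = t ∧ j = t + 1) ∨ (i = t ∧ j = t + 2) ∨ (i = t + 1 ∧ j = t + 2) by omega) with
        ⟨hi', hj'⟩ | ⟨hi', hj'⟩ | ⟨hi', hj'⟩
      · rw [hi', hj']
        exact hc1 (t, t + 1) (Or.inl (Finset.mem_insert_of_mem (Finset.mem_filter.mpr ⟨ht1, by show t + 1 ≤ t + 2; omega⟩)))
      · rw [hi', hj']
        exact hc1 (t, t + 2) (Or.inl (Finset.mem_insert_self _ _))
      · rw [hi', hj']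
        exact hc1 (t + 1, t + 2) (Or.inr (Finset.mem_filter.mpr ⟨ht2, le_refl _⟩)))
    (by
      intro i j hi hij hj
      rcases (show (i = t ∧ j = t + 1) ∨ (i = t ∧ j = t + 2) ∨ (i = t + 1 ∧ j = t + 2) by omega) with
        ⟨hi', hj'⟩ | ⟨hi', hj'⟩ | ⟨hi', hj'⟩
      · rw [hi', hj']
        exact hc2 (t - t, t + 1 - t) (Or.inl (Finset.mem_image.mpr ⟨(t, t + 1),
          Finset.mem_insert_of_mem (Finset.mem_filter.mpr ⟨ht1, le_refl _⟩), rfl⟩))
      · rw [hi', hj']
        exact hc2 (t - t, t + 2 - t) (Or.inl (Finset.mem_image.mpr ⟨(t, t + 2),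
          Finset.mem_insert_self _ _, rfl⟩))
      · rw [hi', hj']
        exact hc2 (t + 1 - t, t + 2 - t) (Or.inr (Finset.mem_image.mpr ⟨(t + 1, t + 2),
          Finset.mem_filter.mpr ⟨ht2, by show t ≤ t + 1; omega⟩, rfl⟩)))
  refine ⟨c, ?_⟩
  intro e he
  by_cases h : e.2 ≤ t + 2
  · have h0 : e.1 < e.2 := by
      rcases he with he | he
      · exact (h1.1 e he).1
      · exact (h2.1 e he).1
    rw [hcl e.1 (by omega), hcl e.2 h]
    apply hc1 e
    rcases he with he | he
    · left; exact Finset.mem_insert_of_mem (Finset.mem_filter.mpr ⟨he, h⟩)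
    · right; exact Finset.mem_filter.mpr ⟨he, h⟩
  · by_cases h' : t ≤ e.1
    · rw [hcr e.1 h', hcr e.2 (by omega)]
      intro heq
      refine hc2 (e.1 - t, e.2 - t) ?_ (σ.injective heq)
      rcases he with he | he
      · left; exact Finset.mem_image.mpr ⟨e, Finset.mem_insert_of_mem (Finset.mem_filter.mpr ⟨he, h'⟩), rfl⟩
      · right; exact Finset.mem_image.mpr ⟨e, Finset.mem_filter.mpr ⟨he, h'⟩, rfl⟩
    · exfalso
      rcases he with he | he
      · exact h1.2 e he (t, t + 1) ht1 ⟨by show e.1 < t; omega, by show t + 1 < e.2; omega⟩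
      · exact h2.2 e he (t + 1, t + 2) ht2 ⟨by show e.1 < t + 1; omega, by show t + 2 < e.2; omega⟩

/-- If all middle consecutive pairs lie in the first queue, apply the spiral theorem. -/
theorem step_spiral (n : ℕ) (E1 E2 : Finset (ℕ × ℕ)) (h1 : Queue n E1) (h2 : Queue n E2)
    (hc : ∀ t, 1 ≤ t → t + 3 ≤ n → (t, t + 1) ∈ E1) :
    ∃ c : ℕ → Fin 7, ∀ e, e ∈ E1 ∨ e ∈ E2 → c e.1 ≠ c e.2 := by
  obtain ⟨c, hc1, hc2⟩ := spiral n E2 h2
  refine ⟨c, ?_⟩
  intro e he
  rcases he with he | he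
  · have h3 := h1.1 e he
    have h4 : e.2 ≤ e.1 + 2 := by
      by_contra hcon
      have h5 := hc (e.1 + 1) (by omega) (by omega)
      exact h1.2 e he _ h5 ⟨by show e.1 < e.1 + 1; omega, by show e.1 + 1 + 1 < e.2; omega⟩
    exact hc1 e.1 e.2 h3.1 h4 h3.2
  · exact hc2 e he

theorem good (n : ℕ) : Good n := by
  classical
  induction n using Nat.strong_induction_on with
  | _ n ih =>
    intro E1 E2 h1 h2
    by_cases hn : n ≤ 7
    · refine ⟨fun i => ⟨i % 7, Nat.mod_lt _ (by norm_num)⟩, ?_⟩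
      intro e he
      rcases he with he | he
      · exact small_col n hn e.1 e.2 (h1.1 e he).1 (h1.1 e he).2
      · exact small_col n hn e.1 e.2 (h2.1 e he).1 (h2.1 e he).2
    by_cases hA : ∃ t, t + 1 < n ∧ (t, t + 1) ∉ E1 ∧ (t, t + 1) ∉ E2
    · obtain ⟨t, ht, ht1, ht2⟩ := hA
      exact step_merge n E1 E2 h1 h2 t ht ht1 ht2 (ih (n - 1) (by omega))
    have hA' : ∀ t, t + 1 < n → (t, t + 1) ∈ E1 ∨ (t, t + 1) ∈ E2 := by
      intro t ht
      by_contra hcon
      push Not at hcon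
      exact hA ⟨t, ht, hcon.1, hcon.2⟩
    by_cases hB : ∃ t, 1 ≤ t ∧ t + 3 < n ∧ (t, t + 1) ∈ E1 ∧ (t + 1, t + 2) ∈ E2
    · obtain ⟨t, ht, htn, ht1, ht2⟩ := hB
      exact step_alt n E1 E2 h1 h2 t ht htn ht1 ht2 ih
    by_cases hB' : ∃ t, 1 ≤ t ∧ t + 3 < n ∧ (t, t + 1) ∈ E2 ∧ (t + 1, t + 2) ∈ E1
    · obtain ⟨t, ht, htn, ht1, ht2⟩ := hB'
      obtain ⟨c, hc⟩ := step_alt n E2 E1 h2 h1 t ht htn ht1 ht2 ih
      exact ⟨c, fun e he => hc e he.symm⟩
    rcases hA' 1 (by omega) with h11 | h11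
    · refine step_spiral n E1 E2 h1 h2 ?_
      intro t ht
      induction t, ht using Nat.le_induction with
      | base => intro _; exact h11
      | succ t ht iht =>
        intro htn
        have h3 := iht (by omega)
        rcases hA' (t + 1) (by omega) with h4 | h4
        · exact h4
        · exact absurd ⟨t, ht, by omega, h3, h4⟩ hB
    · obtain ⟨c, hc⟩ := step_spiral n E2 E1 h2 h1 (by
        intro t ht
        induction t, ht using Nat.le_induction with
        | base => intro _; exact h11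
        | succ t ht iht =>
          intro htn
          have h3 := iht (by omega)
          rcases hA' (t + 1) (by omega) with h4 | h4
          · exact absurd ⟨t, ht, by omega, h3, h4⟩ hB'
          · exact h4)
      exact ⟨c, fun e he => hc e he.symm⟩

/-- Two-queue graphs on `Fin n` are 7-colourable. -/
theorem seven (n : ℕ) (G : SimpleGraph (Fin n))
    (h : ∃ q : Fin n → Fin n → Fin 2,
        ∀ a b c d : Fin n, a < b → b < c → c < d →
          G.Adj a d → G.Adj b c → q a d ≠ q b c) : G.Colorable 7 := by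
  classical
  obtain ⟨q, hq⟩ := h
  let E : Fin 2 → Finset (ℕ × ℕ) := fun k =>
    ((Finset.univ : Finset (Fin n × Fin n)).filter
      (fun e => e.1 < e.2 ∧ G.Adj e.1 e.2 ∧ q e.1 e.2 = k)).image (fun e => ((e.1 : ℕ), (e.2 : ℕ)))
  have hE : ∀ k, Queue n (E k) := by
    intro k
    constructor
    · intro e he
      obtain ⟨f, hf, rfl⟩ := Finset.mem_image.mp he
      obtain ⟨-, hf1, -, -⟩ := Finset.mem_filter.mp hf
      exact ⟨hf1, f.2.isLt⟩
    · intro e he f hf hn
      obtain ⟨e', he', rfl⟩ := Finset.mem_image.mp he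
      obtain ⟨f', hf', rfl⟩ := Finset.mem_image.mp hf
      obtain ⟨-, he1, he2, he3⟩ := Finset.mem_filter.mp he'
      obtain ⟨-, hf1, hf2, hf3⟩ := Finset.mem_filter.mp hf'
      exact hq e'.1 f'.1 f'.2 e'.2 hn.1 hf1 hn.2 he2 hf2 (he3.trans hf3.symm)
  obtain ⟨c, hc⟩ := good n (E 0) (E 1) (hE 0) (hE 1)
  have key : ∀ a b : Fin n, a < b → G.Adj a b → c a ≠ c b := by
    intro a b hab hadj
    apply hc ((a : ℕ), (b : ℕ))
    have : q a b = 0 ∨ q a b = 1 := by
      rcases q a b with ⟨v, hv⟩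
      interval_cases v
      · left; rfl
      · right; rfl
    rcases this with h0 | h0
    · left
      exact Finset.mem_image.mpr ⟨(a, b), Finset.mem_filter.mpr ⟨Finset.mem_univ _, hab, hadj, h0⟩, rfl⟩
    · right
      exact Finset.mem_image.mpr ⟨(a, b), Finset.mem_filter.mpr ⟨Finset.mem_univ _, hab, hadj, h0⟩, rfl⟩
  refine ⟨SimpleGraph.Coloring.mk (fun v => c v) ?_⟩
  intro a b hadj
  rcases lt_trichotomy a b with h | h | h
  · exact key a b h hadj
  · exact absurd (h ▸ hadj) (G.loopless.irrefl a)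
  · exact (key b a h hadj.symm).symm

end Pool.Agent.W49.Q2
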